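import Pool.Agent.H3.MatConvDefs

open Matrix

namespace Pool.Agent.H3.MatConv

variable {g : ℕ}

theorem mconv_mono {S T : GSet g} (h : ∀ n, S n ⊆ T n) (n : ℕ) : mconv S n ⊆ mconv T n := by
  rintro X ⟨hn, ι, hι, m, Y, V, hY, hc⟩
  exact ⟨hn, ι, hι, m, Y, V, fun i => h _ (hY i), hc⟩

theorem subset_mconv {S : GSet g} (n : ℕ) (hn : 0 < n) : S n ⊆ mconv S n := by
  intro X hX
  refine ⟨hn, Unit, inferInstance, fun _ => n, fun _ => X, fun _ => 1, fun _ => hX, ?_, ?_⟩
  · simp
  · intro j; simp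

theorem mconv_mconv {S : GSet g} (n : ℕ) : mconv (mconv S) n ⊆ mconv S n := by
  rintro X ⟨hn, ι, hι, m, Y, V, hY, hc1, hc2⟩
  choose hm κ hκ p Z W hZ hW1 hW2 using hY
  refine ⟨hn, Σ i, κ i, inferInstance, fun s => p s.1 s.2, fun s => Z s.1 s.2,
    fun s => W s.1 s.2 * V s.1, fun s => hZ s.1 s.2, ?_, ?_⟩
  · rw [Fintype.sum_sigma]
    rw [← hc1]
    refine Finset.sum_congr rfl fun i _ => ?_
    have : ∀ k, (W i k * V i)ᴴ * (W i k * V i) = (V i)ᴴ * ((W i k)ᴴ * W i k) * V i := by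
      intro k
      simp only [Matrix.conjTranspose_mul, Matrix.mul_assoc]
    simp only [this]
    rw [← Matrix.sum_mul, ← Matrix.mul_sum, hW1 i, Matrix.mul_one]
  · intro j
    rw [hc2 j, Fintype.sum_sigma]
    refine Finset.sum_congr rfl fun i _ => ?_
    have : ∀ k, (W i k * V i)ᴴ * Z i k j * (W i k * V i)
        = (V i)ᴴ * ((W i k)ᴴ * Z i k j * W i k) * V i := by
      intro k
      simp only [Matrix.conjTranspose_mul, Matrix.mul_assoc]
    simp only [this]
    rw [← Matrix.sum_mul, ← Matrix.mul_sum, ← hW2 i j]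

theorem mconv_isMatrixConvex (S : GSet g) : IsMatrixConvex (mconv S) := mconv_mconv

theorem mconv_pos {S : GSet g} {n : ℕ} {X : Tup g n} (h : X ∈ mconv S n) : 0 < n := h.1

theorem mconv_zero (S : GSet g) : mconv S 0 = ∅ := by
  ext X
  simp only [Set.mem_empty_iff_false, iff_false]
  intro h
  exact absurd h.1 (lt_irrefl _)

/-- compression by an isometry -/
theorem compress_mem {K : GSet g} (hK : IsMatrixConvex K) {m n : ℕ} (hn : 0 < n) {Z : Tup g m}
    (hZ : Z ∈ K m) (V : Matrix (Fin m) (Fin n) ℂ) (hV : Vᴴ * V = 1) :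
    (fun j => Vᴴ * Z j * V) ∈ K n := by
  apply hK n
  refine ⟨hn, Unit, inferInstance, fun _ => m, fun _ => Z, fun _ => V, fun _ => hZ, ?_, ?_⟩
  · simpa using hV
  · intro j; simp

theorem isHermitian_of_mem_mconv {S : GSet g} (hS : IsSelfAdjointSet S) {n : ℕ} {X : Tup g n}
    (hX : X ∈ mconv S n) (j : Fin g) : (X j).IsHermitian := by
  obtain ⟨hn, ι, hι, m, Y, V, hY, hc1, hc2⟩ := hX
  rw [hc2 j]
  unfold Matrix.IsHermitian
  rw [Matrix.conjTranspose_sum]
  refine Finset.sum_congr rfl fun i _ => ?_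
  have := hS.2 _ _ (hY i) j
  unfold Matrix.IsHermitian at this
  rw [Matrix.conjTranspose_mul, Matrix.conjTranspose_mul, Matrix.conjTranspose_conjTranspose, this,
    Matrix.mul_assoc]

/-- the square-lift of a tuple -/
noncomputable def lift {n : ℕ} (Z : Tup g n) : Tup (g + 1) n :=
  Fin.snoc (α := fun _ => Matrix (Fin n) (Fin n) ℂ) Z (∑ j, Z j * Z j)

@[simp] theorem lift_castSucc {n : ℕ} (Z : Tup g n) (j : Fin g) : lift Z j.castSucc = Z j := by
  simp [lift]

@[simp] theorem lift_last {n : ℕ} (Z : Tup g n) : lift Z (Fin.last g) = ∑ j, Z j * Z j := by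
  simp [lift]

/-- the graph of the square-lift over `L` -/
def graph (L : GSet g) : GSet (g + 1) := fun n => lift '' (L n)

/-- the lifted matrix convex set -/
def Lift (L : GSet g) : GSet (g + 1) := mconv (graph L)

theorem graph_selfAdjoint {L : GSet g} (hL : IsSelfAdjointSet L) : IsSelfAdjointSet (graph L) := by
  refine ⟨?_, ?_⟩
  · simp [graph, hL.1]
  · rintro n X ⟨Z, hZ, rfl⟩ j
    refine Fin.lastCases ?_ (fun j => ?_) j
    · rw [lift_last]
      unfold Matrix.IsHermitian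
      rw [Matrix.conjTranspose_sum]
      refine Finset.sum_congr rfl fun i _ => ?_
      have := hL.2 _ _ hZ i
      unfold Matrix.IsHermitian at this
      rw [Matrix.conjTranspose_mul, this]
    · rw [lift_castSucc]
      exact hL.2 _ _ hZ j

theorem Lift_selfAdjoint {L : GSet g} (hL : IsSelfAdjointSet L) : IsSelfAdjointSet (Lift L) :=
  ⟨mconv_zero _, fun _ _ hX j => isHermitian_of_mem_mconv (graph_selfAdjoint hL) hX j⟩

theorem Lift_matrixConvex (L : GSet g) : IsMatrixConvex (Lift L) := mconv_isMatrixConvex _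

theorem proj_Lift {L : GSet g} (hL : IsSelfAdjointSet L) (hc : IsMatrixConvex L) (n : ℕ) :
    proj g 1 (Lift L) n = L n := by
  ext X
  constructor
  · rintro ⟨Z, ⟨hn, ι, hι, m, Y, V, hY, hc1, hc2⟩, hX⟩
    choose T hT hTY using hY
    apply hc n
    refine ⟨hn, ι, hι, m, T, V, hT, hc1, fun j => ?_⟩
    rw [hX j]
    have h1 : (Fin.castAdd 1 j) = j.castSucc := rfl
    rw [h1, hc2]
    refine Finset.sum_congr rfl fun i _ => ?_
    rw [← hTY i, lift_castSucc]
  · intro hX
    have hn : 0 < n := by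
      rcases Nat.eq_zero_or_pos n with h | h
      · subst h; rw [hL.1] at hX; exact absurd hX (Set.notMem_empty _)
      · exact h
    refine ⟨lift X, subset_mconv n hn ⟨X, hX, rfl⟩, fun j => ?_⟩
    have h1 : (Fin.castAdd 1 j) = j.castSucc := rfl
    rw [h1, lift_castSucc]

end Pool.Agent.H3.MatConv
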