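import Pool.Agent.H3.MatConvDecomp

open Matrix

namespace Pool.Agent.H3.MatConv

variable {g : ℕ}

/-- padding a matrix convex combination by zero coefficients -/
theorem pad_comb {S : GSet g} {n : ℕ} (hn : 0 < n) {X : Tup g n} (hX : X ∈ mconv S n)
    (hS0 : S 0 = ∅) (N : ℕ) :
    ∃ (ι : Type) (_ : Fintype ι) (_ : DecidableEq ι) (m : ι → ℕ) (Y : ∀ i : ι, Tup g (m i))
      (V : ∀ i : ι, Matrix (Fin (m i)) (Fin n) ℂ),
      (∀ i, Y i ∈ S (m i)) ∧ IsMatrixConvexComb X ι m Y V ∧
      N ≤ Fintype.card (Σ i, Fin (m i)) := by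
  classical
  obtain ⟨_, ι, hι, m, Y, V, hY, hc1, hc2⟩ := hX
  refine ⟨ι × Fin (N + 1), inferInstance, inferInstance, fun s => m s.1, fun s => Y s.1,
    fun s => if s.2 = 0 then V s.1 else 0, fun s => hY s.1, ⟨?_, ?_⟩, ?_⟩
  · rw [Fintype.sum_prod_type, ← hc1]
    refine Finset.sum_congr rfl fun i _ => ?_
    rw [Finset.sum_eq_single 0]
    · simp
    · intro b _ hb
      simp [hb]
    · simp
  · intro j
    rw [Fintype.sum_prod_type, hc2 j]
    refine Finset.sum_congr rfl fun i _ => ?_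
    rw [Finset.sum_eq_single 0]
    · simp
    · intro b _ hb
      simp [hb]
    · simp
  · have hne : Nonempty ι := by
      by_contra h
      rw [not_nonempty_iff] at h
      rw [Finset.univ_eq_empty, Finset.sum_empty] at hc1
      have := congrFun (congrFun hc1 ⟨0, hn⟩) ⟨0, hn⟩
      simp at this
    obtain ⟨i0⟩ := hne
    have hm : 0 < m i0 := by
      rcases Nat.eq_zero_or_pos (m i0) with h | h
      · have h1 := hY i0
        exfalso
        revert h1
        generalize Y i0 = y
        revert y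
        rw [h, hS0]
        intro y hy
        exact hy
      · exact h
    let f : Fin N → (Σ s : ι × Fin (N + 1), Fin (m s.1)) := fun k =>
      ⟨(i0, k.castSucc), ⟨0, hm⟩⟩
    have hf : Function.Injective f := by
      intro a b hab
      simp only [f, Sigma.mk.injEq, Prod.mk.injEq, true_and] at hab
      exact Fin.castSucc_injective _ hab.1
    have := Fintype.card_le_of_injective f hf
    simpa using this

theorem conj_blockDiagonal' {ι : Type} [Fintype ι] [DecidableEq ι] {m : ι → ℕ} {p q : ℕ}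
    (M : ∀ i, Matrix (Fin (m i)) (Fin (m i)) ℂ)
    (T : Matrix (Σ i, Fin (m i)) (Fin p) ℂ) (T' : Matrix (Σ i, Fin (m i)) (Fin q) ℂ) :
    Tᴴ * Matrix.blockDiagonal' M * T'
      = ∑ i, (Matrix.of fun a k => T ⟨i, a⟩ k)ᴴ * M i * (Matrix.of fun a k => T' ⟨i, a⟩ k) := by
  ext k l
  rw [Matrix.sum_apply, Matrix.mul_apply, Fintype.sum_sigma]
  refine Finset.sum_congr rfl fun i _ => ?_
  rw [Matrix.mul_apply]
  refine Finset.sum_congr rfl fun a _ => ?_
  simp only [Matrix.of_apply]
  congr 1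
  rw [Matrix.mul_apply, Matrix.mul_apply, Fintype.sum_sigma]
  rw [Finset.sum_eq_single i]
  · refine Finset.sum_congr rfl fun b _ => ?_
    simp [Matrix.blockDiagonal'_apply_eq]
  · intro i' _ hi'
    apply Finset.sum_eq_zero
    intro b _
    rw [Matrix.blockDiagonal'_apply_ne _ _ _ hi', mul_zero]
  · simp

/-- Carathéodory-type truncation. -/
theorem truncate {L : GSet g} (hL : IsSelfAdjointSet L) (hc : IsMatrixConvex L) {n : ℕ}
    (hn : 0 < n) {X : Tup (g + 1) n} (hX : X ∈ Lift L n) :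
    ∃ (Z : Tup g (n * (g + 1))) (V : Matrix (Fin (n * (g + 1))) (Fin n) ℂ),
      Z ∈ L (n * (g + 1)) ∧ Vᴴ * V = 1 ∧ ∀ j, X j = Vᴴ * lift Z j * V := by
  classical
  have hN : 0 < n * (g + 1) := Nat.mul_pos hn (Nat.succ_pos g)
  obtain ⟨ι, hι, hιd, m, Y, V, hY, ⟨hc1, hc2⟩, hcard⟩ :=
    pad_comb hn hX (graph_selfAdjoint hL).1 (n * (g + 1))
  choose D hD hDY using hY
  let T : Matrix (Σ i, Fin (m i)) (Fin n) ℂ := Matrix.of fun s k => V s.1 s.2 k
  have hTV : ∀ i, (Matrix.of fun a k => T ⟨i, a⟩ k) = V i := fun i => rfl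
  let B : Fin g → Matrix (Σ i, Fin (m i)) (Σ i, Fin (m i)) ℂ := fun j =>
    Matrix.blockDiagonal' (fun i => D i j)
  have hBsa : ∀ j, (B j)ᴴ = B j := by
    intro j
    simp only [B]
    rw [Matrix.blockDiagonal'_conjTranspose]
    congr 1
    funext i
    exact (hL.2 _ _ (hD i) j).eq
  have hTT : Tᴴ * T = 1 := by
    have := conj_blockDiagonal' (fun i => (1 : Matrix (Fin (m i)) (Fin (m i)) ℂ)) T T
    rw [show (Matrix.blockDiagonal' fun i => (1 : Matrix (Fin (m i)) (Fin (m i)) ℂ)) = 1 from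
      Matrix.blockDiagonal'_one] at this
    rw [Matrix.mul_one] at this
    rw [this, ← hc1]
    refine Finset.sum_congr rfl fun i _ => ?_
    rw [hTV, Matrix.mul_one]
  have hTB : ∀ j, Tᴴ * B j * T = X j.castSucc := by
    intro j
    rw [conj_blockDiagonal', hc2]
    refine Finset.sum_congr rfl fun i _ => ?_
    rw [hTV, ← hDY i, lift_castSucc]
  have hTBB : Tᴴ * (∑ j, B j * B j) * T = X (Fin.last g) := by
    rw [Matrix.mul_sum, Matrix.sum_mul]
    have : ∀ j, Tᴴ * (B j * B j) * T = ∑ i, (V i)ᴴ * (D i j * D i j) * V i := by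
      intro j
      simp only [B]
      rw [← Matrix.blockDiagonal'_mul, conj_blockDiagonal']
      rfl
    simp only [this]
    rw [Finset.sum_comm, hc2]
    refine Finset.sum_congr rfl fun i _ => ?_
    rw [← hDY i, lift_last, Matrix.mul_sum, Matrix.sum_mul]
  -- the finite family of vectors
  let w : Fin (n * (g + 1)) → (Σ i, Fin (m i)) → ℂ := fun k s =>
    Fin.lastCases (motive := fun _ => ℂ) (T s (finProdFinEquiv.symm k).1)
      (fun j => (B j * T) s (finProdFinEquiv.symm k).1) (finProdFinEquiv.symm k).2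
  obtain ⟨U, hU, hfix⟩ := exists_isometry_fixing hcard w
  have hUT : U * Uᴴ * T = T := by
    ext s k
    have := congrFun (hfix (finProdFinEquiv (k, Fin.last g))) s
    simp only [w, Equiv.symm_apply_apply, Fin.lastCases_last, Matrix.mulVec, dotProduct] at this
    rw [Matrix.mul_apply]
    exact this
  have hUBT : ∀ j, U * Uᴴ * (B j * T) = B j * T := by
    intro j
    ext s k
    have := congrFun (hfix (finProdFinEquiv (k, j.castSucc))) s
    simp only [w, Equiv.symm_apply_apply, Fin.lastCases_castSucc, Matrix.mulVec,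
      dotProduct] at this
    rw [Matrix.mul_apply]
    exact this
  have hTU : Tᴴ * (U * Uᴴ) = Tᴴ := by
    have := congrArg Matrix.conjTranspose hUT
    simpa [Matrix.conjTranspose_mul, Matrix.mul_assoc] using this
  have hTBU : ∀ j, Tᴴ * B j * (U * Uᴴ) = Tᴴ * B j := by
    intro j
    have := congrArg Matrix.conjTranspose (hUBT j)
    simpa [Matrix.conjTranspose_mul, Matrix.mul_assoc, hBsa j] using this
  refine ⟨fun j => Uᴴ * B j * U, Uᴴ * T, ?_, ?_, ?_⟩
  · apply hc
    refine ⟨hN, ι, hι, m, D, fun i => Matrix.of fun a k => U ⟨i, a⟩ k, hD, ?_, ?_⟩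
    · have := conj_blockDiagonal' (fun i => (1 : Matrix (Fin (m i)) (Fin (m i)) ℂ)) U U
      rw [show (Matrix.blockDiagonal' fun i => (1 : Matrix (Fin (m i)) (Fin (m i)) ℂ)) = 1 from
        Matrix.blockDiagonal'_one] at this
      rw [Matrix.mul_one, hU] at this
      rw [this]
      refine Finset.sum_congr rfl fun i _ => ?_
      rw [Matrix.mul_one]
    · intro j
      exact conj_blockDiagonal' _ _ _
  · calc (Uᴴ * T)ᴴ * (Uᴴ * T) = Tᴴ * (U * Uᴴ * T) := by
          rw [Matrix.conjTranspose_mul, Matrix.conjTranspose_conjTranspose]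
          simp only [Matrix.mul_assoc]
      _ = 1 := by rw [hUT, hTT]
  · intro j
    refine Fin.lastCases ?_ (fun j => ?_) j
    · rw [lift_last, ← hTBB, Matrix.mul_sum, Matrix.sum_mul, Matrix.mul_sum, Matrix.sum_mul]
      refine Finset.sum_congr rfl fun j _ => ?_
      symm
      calc (Uᴴ * T)ᴴ * (Uᴴ * B j * U * (Uᴴ * B j * U)) * (Uᴴ * T)
          = (Tᴴ * (U * Uᴴ) * B j) * (U * Uᴴ) * (B j * (U * Uᴴ * T)) := by
            rw [Matrix.conjTranspose_mul, Matrix.conjTranspose_conjTranspose]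
            simp only [Matrix.mul_assoc]
        _ = Tᴴ * B j * (U * Uᴴ) * (B j * T) := by rw [hTU, hUT]
        _ = Tᴴ * B j * (B j * T) := by rw [hTBU]
        _ = Tᴴ * (B j * B j) * T := by simp only [Matrix.mul_assoc]
    · rw [lift_castSucc, ← hTB]
      symm
      calc (Uᴴ * T)ᴴ * (Uᴴ * B j * U) * (Uᴴ * T)
          = (Tᴴ * (U * Uᴴ)) * B j * (U * Uᴴ * T) := by
            rw [Matrix.conjTranspose_mul, Matrix.conjTranspose_conjTranspose]
            simp only [Matrix.mul_assoc]
        _ = Tᴴ * B j * T := by rw [hTU, hUT]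

theorem entry_le_one {m n : ℕ} (V : Matrix (Fin m) (Fin n) ℂ) (hV : Vᴴ * V = 1) (a : Fin m)
    (k : Fin n) : ‖V a k‖ ≤ 1 := by
  have h := congrFun (congrFun hV k) k
  rw [Matrix.mul_apply, Matrix.one_apply_eq] at h
  have h2 : ∑ b, ‖V b k‖ ^ 2 = (1 : ℝ) := by
    have h3 : ((∑ b, ‖V b k‖ ^ 2 : ℝ) : ℂ) = 1 := by
      rw [← h]
      push_cast
      refine Finset.sum_congr rfl fun b _ => ?_
      rw [Matrix.conjTranspose_apply, ← Complex.conj_mul']
      rfl
    exact_mod_cast h3
  have h4 : ‖V a k‖ ^ 2 ≤ ∑ b, ‖V b k‖ ^ 2 :=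
    Finset.single_le_sum (f := fun b => ‖V b k‖ ^ 2) (fun b _ => by positivity)
      (Finset.mem_univ a)
  rw [h2] at h4
  have := norm_nonneg (V a k)
  nlinarith

theorem isCompact_of_entries {α β : Type*} [Finite α] [Finite β] (C : ℝ) :
    IsCompact {M : Matrix α β ℂ | ∀ a b, ‖M a b‖ ≤ C} := by
  have : {M : Matrix α β ℂ | ∀ a b, ‖M a b‖ ≤ C}
      = (Set.univ.pi fun _ : α => Set.univ.pi fun _ : β => Metric.closedBall (0 : ℂ) C) := by
    ext M
    constructor
    · intro h a _ b _
      have := h a b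
      simpa using this
    · intro h a b
      have := h a (Set.mem_univ _) b (Set.mem_univ _)
      simpa using this
  rw [this]
  exact isCompact_univ_pi fun _ => isCompact_univ_pi fun _ => isCompact_closedBall _ _

theorem isCompact_level {L : GSet g} (hb : IsClosedBounded L) (N : ℕ) : IsCompact (L N) := by
  obtain ⟨hcl, C, hC⟩ := hb N
  have h1 : IsCompact {Z : Tup g N | ∀ j a b, ‖Z j a b‖ ≤ C} := by
    have : {Z : Tup g N | ∀ j a b, ‖Z j a b‖ ≤ C}
        = Set.univ.pi fun _ : Fin g => {M : Matrix (Fin N) (Fin N) ℂ | ∀ a b, ‖M a b‖ ≤ C} := by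
      ext Z
      constructor
      · intro h j _
        exact h j
      · intro h j
        exact h j (Set.mem_univ _)
    rw [this]
    exact isCompact_univ_pi fun _ => isCompact_of_entries C
  exact h1.of_isClosed_subset hcl fun Z hZ => hC Z hZ

theorem Lift_compact {L : GSet g} (hL : IsSelfAdjointSet L) (hc : IsMatrixConvex L)
    (hb : IsClosedBounded L) (n : ℕ) : IsCompact (Lift L n) := by
  rcases Nat.eq_zero_or_pos n with h | hn
  · subst h
    rw [show Lift L 0 = ∅ from mconv_zero _]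
    exact isCompact_empty
  let N := n * (g + 1)
  let A : Set (Tup g N × Matrix (Fin N) (Fin n) ℂ) :=
    (L N) ×ˢ {V | Vᴴ * V = 1}
  have hA : IsCompact A := by
    refine (isCompact_level hb N).prod ?_
    refine (isCompact_of_entries 1).of_isClosed_subset ?_ fun V hV => entry_le_one V hV
    exact isClosed_eq (by fun_prop) continuous_const
  let Φ : Tup g N × Matrix (Fin N) (Fin n) ℂ → Tup (g + 1) n := fun p j =>
    p.2ᴴ * lift p.1 j * p.2
  have hΦ : Continuous Φ := by
    refine continuous_pi fun j => ?_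
    refine Fin.lastCases ?_ (fun j => ?_) j
    · simp only [Φ, lift_last]
      fun_prop
    · simp only [Φ, lift_castSucc]
      fun_prop
  have himg : Lift L n = Φ '' A := by
    ext X
    constructor
    · intro hX
      obtain ⟨Z, V, hZ, hV, hXV⟩ := truncate hL hc hn hX
      exact ⟨(Z, V), ⟨hZ, hV⟩, funext fun j => (hXV j).symm⟩
    · rintro ⟨⟨Z, V⟩, ⟨hZ, hV⟩, rfl⟩
      exact ⟨hn, Unit, inferInstance, fun _ => N, fun _ => lift Z, fun _ => V,
        fun _ => ⟨Z, hZ, rfl⟩, by simpa using hV, fun j => by simp [Φ]⟩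
  rw [himg]
  exact hA.image hΦ

theorem Lift_closedBounded {L : GSet g} (hL : IsSelfAdjointSet L) (hc : IsMatrixConvex L)
    (hb : IsClosedBounded L) : IsClosedBounded (Lift L) := by
  intro n
  have hcomp := Lift_compact hL hc hb n
  refine ⟨hcomp.isClosed, ?_⟩
  obtain ⟨C, hC⟩ := hcomp.exists_bound_of_continuousOn
    (f := fun X : Tup (g + 1) n => (fun j a b => X j a b : Fin (g + 1) → Fin n → Fin n → ℂ))
    (by
      apply Continuous.continuousOn
      fun_prop)
  refine ⟨C, fun X hX j a b => ?_⟩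
  have h1 := hC X hX
  have h2 := norm_le_pi_norm (fun j a b => X j a b : Fin (g + 1) → Fin n → Fin n → ℂ) j
  have h3 := norm_le_pi_norm (fun a b => X j a b : Fin n → Fin n → ℂ) a
  have h4 := norm_le_pi_norm (fun b => X j a b : Fin n → ℂ) b
  exact ((h4.trans h3).trans h2).trans h1

end Pool.Agent.H3.MatConv
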