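import Pool.Agent.H3.MatConvExt

open Matrix

namespace Pool.Agent.H3.MatConv

variable {g : ℕ}

theorem two_term_mem {S : GSet g} {n p q : ℕ} (hn : 0 < n) (X : Tup g n) (Y₁ : Tup g p)
    (Y₂ : Tup g q) (h₁ : Y₁ ∈ S p) (h₂ : Y₂ ∈ S q) (V₁ : Matrix (Fin p) (Fin n) ℂ)
    (V₂ : Matrix (Fin q) (Fin n) ℂ) (hV : V₁ᴴ * V₁ + V₂ᴴ * V₂ = 1)
    (hX : ∀ j, X j = V₁ᴴ * Y₁ j * V₁ + V₂ᴴ * Y₂ j * V₂) : X ∈ mconv S n := by
  let m : Bool → ℕ := fun b => match b with
    | true => p
    | false => q
  let Y : ∀ b : Bool, Tup g (m b) := fun b => match b with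
    | true => Y₁
    | false => Y₂
  let V : ∀ b : Bool, Matrix (Fin (m b)) (Fin n) ℂ := fun b => match b with
    | true => V₁
    | false => V₂
  refine ⟨hn, Bool, inferInstance, m, Y, V, ?_, ?_, ?_⟩
  · intro b
    cases b
    · exact h₂
    · exact h₁
  · rw [Fintype.sum_bool]
    exact hV
  · intro j
    rw [Fintype.sum_bool]
    exact hX j

/-- A reducible tuple has a reducing isometry. -/
theorem exists_reducing {n : ℕ} (hn : 0 < n) (Z : Tup g n)
    (hirr : ¬ Irred Z) :
    ∃ (r : ℕ) (U : Matrix (Fin n) (Fin r) ℂ), 0 < r ∧ r < n ∧ Uᴴ * U = 1 ∧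
      ∀ j, U * Uᴴ * (Z j * U) = Z j * U := by
  classical
  unfold Irred at hirr
  push Not at hirr
  obtain ⟨C, hC, hns⟩ := hirr
  have : Nonempty (Fin n) := ⟨⟨0, hn⟩⟩
  obtain ⟨lam, hlam⟩ := Module.End.exists_eigenvalue (Matrix.toLin' C)
  obtain ⟨v, hv⟩ := hlam.exists_hasEigenvector
  have hv1 : C *ᵥ v = lam • v := by
    have := hv.apply_eq_smul
    rwa [Matrix.toLin'_apply] at this
  have hv0 : v ≠ 0 := hv.2
  let E : Submodule ℂ (EuclideanSpace ℂ (Fin n)) :=
    { carrier := {x | C *ᵥ (x.ofLp) = lam • x.ofLp}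
      add_mem' := by
        intro a b ha hb
        simp only [Set.mem_ofPred_eq] at ha hb ⊢
        rw [WithLp.ofLp_add, Matrix.mulVec_add, ha, hb, smul_add]
      zero_mem' := by simp
      smul_mem' := by
        intro c a ha
        simp only [Set.mem_ofPred_eq] at ha ⊢
        rw [WithLp.ofLp_smul, Matrix.mulVec_smul, ha, smul_comm] }
  have hE : ∀ x : EuclideanSpace ℂ (Fin n), x ∈ E ↔ C *ᵥ (x.ofLp) = lam • x.ofLp := fun x => Iff.rfl
  let b := stdOrthonormalBasis ℂ E
  let r := Module.finrank ℂ E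
  let B : Fin r → EuclideanSpace ℂ (Fin n) := fun k => (b k : EuclideanSpace ℂ (Fin n))
  have hB : Orthonormal ℂ B := b.orthonormal.comp_linearIsometry E.subtypeₗᵢ
  let U : Matrix (Fin n) (Fin r) ℂ := Matrix.of fun a k => B k a
  have hU : Uᴴ * U = 1 := onb_matrix B hB
  have hfix : ∀ x : EuclideanSpace ℂ (Fin n), x ∈ E → (U * Uᴴ) *ᵥ x.ofLp = x.ofLp := by
    intro x hx
    have h1 : (⟨x, hx⟩ : E) = ∑ k, inner ℂ (b k) (⟨x, hx⟩ : E) • b k := (b.sum_repr' _).symm
    have h2 : x = ∑ k, inner ℂ (B k) x • B k := by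
      have := congrArg (fun y : E => (y : EuclideanSpace ℂ (Fin n))) h1
      simpa [B] using this
    funext a
    have ha := congrArg (fun x : EuclideanSpace ℂ (Fin n) => x.ofLp a) h2
    simp only at ha
    conv_rhs => rw [ha]
    rw [Matrix.mulVec, dotProduct]
    simp only [Matrix.mul_apply, Matrix.conjTranspose_apply, U, Matrix.of_apply]
    rw [WithLp.ofLp_sum]
    simp only [Finset.sum_apply, smul_eq_mul, PiLp.inner_apply, WithLp.ofLp_smul, Pi.smul_apply]
    simp only [Finset.sum_mul]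
    rw [Finset.sum_comm]
    refine Finset.sum_congr rfl fun i _ => ?_
    refine Finset.sum_congr rfl fun c _ => ?_
    simp
    ring
  refine ⟨r, U, ?_, ?_, hU, ?_⟩
  · -- E ≠ ⊥
    rw [Module.finrank_pos_iff_exists_ne_zero]
    refine ⟨⟨WithLp.toLp 2 v, hv1⟩, ?_⟩
    intro h
    apply hv0
    have := congrArg (fun y : E => (y : EuclideanSpace ℂ (Fin n)).ofLp) h
    simpa using this
  · -- E ≠ ⊤
    have hlt : E < ⊤ := by
      rw [lt_top_iff_ne_top]
      intro htop
      apply hns lam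
      ext i j
      have h1 : (WithLp.toLp 2 (Pi.single j 1 : Fin n → ℂ)) ∈ E := by rw [htop]; trivial
      rw [hE] at h1
      have := congrFun h1 i
      simp only at this
      rw [Matrix.mulVec_single_one] at this
      simpa [Matrix.one_apply, Pi.single_apply] using this
    have := Submodule.finrank_lt hlt.ne
    simpa using this
  · intro j
    ext a k
    have hmem : (WithLp.toLp 2 (Z j *ᵥ (B k).ofLp) : EuclideanSpace ℂ (Fin n)) ∈ E := by
      rw [hE]
      simp only
      have hBk : C *ᵥ (B k).ofLp = lam • (B k).ofLp := (b k).2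
      rw [Matrix.mulVec_mulVec, hC j, ← Matrix.mulVec_mulVec, hBk, Matrix.mulVec_smul]
    have h1 := congrFun (hfix _ hmem) a
    simp only at h1
    have h2 : (Z j *ᵥ (B k).ofLp) = fun c => (Z j * U) c k := by
      funext c
      rw [Matrix.mulVec, dotProduct, Matrix.mul_apply]
      rfl
    rw [h2] at h1
    refine Eq.trans ?_ h1
    rw [Matrix.mul_apply, Matrix.mulVec, dotProduct]

theorem lift_mem_mconv_freeExt {L : GSet g} (hL : IsSelfAdjointSet L) (hc : IsMatrixConvex L) :
    ∀ n : ℕ, 0 < n → ∀ Z ∈ L n, lift Z ∈ mconv (freeExt (Lift L)) n := by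
  intro n
  induction n using Nat.strong_induction_on with
  | _ n ih =>
    intro hn Z hZ
    by_cases hirr : Irred Z
    · exact subset_mconv n hn (lift_mem_freeExt hL hn hZ hirr)
    · obtain ⟨r, U, hr0, hrn, hU, hred⟩ := exists_reducing hn Z hirr
      obtain ⟨U', h1, h2, h3, h4⟩ := exists_complement (l := n - r) (by omega) U hU
      have hZsa : ∀ j, (Z j)ᴴ = Z j := fun j => (hL.2 _ _ hZ j).eq
      -- P = U Uᴴ commutes with Z
      have hP1 : ∀ j, U * Uᴴ * Z j * (U * Uᴴ) = Z j * (U * Uᴴ) := by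
        intro j
        have := congrArg (fun M => M * Uᴴ) (hred j)
        simpa only [Matrix.mul_assoc] using this
      have hP2 : ∀ j, U * Uᴴ * Z j = Z j * (U * Uᴴ) := by
        intro j
        have h5 := congrArg Matrix.conjTranspose (hP1 j)
        simp only [Matrix.conjTranspose_mul, Matrix.conjTranspose_conjTranspose, hZsa j] at h5
        have h6 := hP1 j
        rw [Matrix.mul_assoc (U * Uᴴ)] at h6
        rw [← h5, h6]
      have hP' : U' * U'ᴴ = 1 - U * Uᴴ := by rw [← h4]; abel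
      have hP3 : ∀ j, U' * U'ᴴ * Z j = Z j * (U' * U'ᴴ) := by
        intro j
        rw [hP', Matrix.sub_mul, Matrix.mul_sub, hP2 j, Matrix.one_mul, Matrix.mul_one]
      let Z₁ : Tup g r := fun j => Uᴴ * Z j * U
      let Z₂ : Tup g (n - r) := fun j => U'ᴴ * Z j * U'
      have hZ₁ : Z₁ ∈ L r := compress_mem hc hr0 hZ U hU
      have hZ₂ : Z₂ ∈ L (n - r) := compress_mem hc (by omega) hZ U' h1
      have ih1 := ih r hrn hr0 Z₁ hZ₁
      have ih2 := ih (n - r) (by omega) (by omega) Z₂ hZ₂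
      apply mconv_mconv
      refine two_term_mem hn (lift Z) (lift Z₁) (lift Z₂) ih1 ih2 Uᴴ U'ᴴ ?_ ?_
      · rw [Matrix.conjTranspose_conjTranspose, Matrix.conjTranspose_conjTranspose, h4]
      · have e1 : ∀ j, U * Z₁ j * Uᴴ = Z j * (U * Uᴴ) := by
          intro j
          calc U * Z₁ j * Uᴴ = U * Uᴴ * Z j * (U * Uᴴ) := by
                simp only [Z₁, Matrix.mul_assoc]
            _ = _ := hP1 j
        have e2 : ∀ j, U' * Z₂ j * U'ᴴ = Z j * (U' * U'ᴴ) := by
          intro j
          calc U' * Z₂ j * U'ᴴ = (U' * U'ᴴ * Z j) * (U' * U'ᴴ) := by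
                simp only [Z₂, Matrix.mul_assoc]
            _ = Z j * (U' * (U'ᴴ * U') * U'ᴴ) := by rw [hP3]; simp only [Matrix.mul_assoc]
            _ = _ := by rw [h1, Matrix.mul_one]
        intro j
        rw [Matrix.conjTranspose_conjTranspose, Matrix.conjTranspose_conjTranspose]
        refine Fin.lastCases ?_ (fun j => ?_) j
        · simp only [lift_last]
          have f1 : ∀ j, U * (Z₁ j * Z₁ j) * Uᴴ = Z j * Z j * (U * Uᴴ) := by
            intro j
            calc U * (Z₁ j * Z₁ j) * Uᴴ = (U * Z₁ j * (Uᴴ * U)) * (Z₁ j * Uᴴ) := by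
                  rw [hU, Matrix.mul_one]; simp only [Matrix.mul_assoc]
              _ = (U * Z₁ j * Uᴴ) * (U * Z₁ j * Uᴴ) := by simp only [Matrix.mul_assoc]
              _ = Z j * (U * Uᴴ * Z j * (U * Uᴴ)) := by rw [e1]; simp only [Matrix.mul_assoc]
              _ = _ := by rw [hP1]; simp only [Matrix.mul_assoc]
          have f2 : ∀ j, U' * (Z₂ j * Z₂ j) * U'ᴴ = Z j * Z j * (U' * U'ᴴ) := by
            intro j
            calc U' * (Z₂ j * Z₂ j) * U'ᴴ = (U' * Z₂ j * (U'ᴴ * U')) * (Z₂ j * U'ᴴ) := by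
                  rw [h1, Matrix.mul_one]; simp only [Matrix.mul_assoc]
              _ = (U' * Z₂ j * U'ᴴ) * (U' * Z₂ j * U'ᴴ) := by simp only [Matrix.mul_assoc]
              _ = Z j * (U' * U'ᴴ * Z j) * (U' * U'ᴴ) := by
                    rw [e2]; simp only [Matrix.mul_assoc]
              _ = Z j * Z j * (U' * (U'ᴴ * U') * U'ᴴ) := by
                    rw [hP3]; simp only [Matrix.mul_assoc]
              _ = _ := by rw [h1, Matrix.mul_one]
          rw [Matrix.mul_sum, Matrix.sum_mul, Matrix.mul_sum, Matrix.sum_mul]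
          simp only [f1, f2]
          rw [← Finset.sum_add_distrib]
          refine Finset.sum_congr rfl fun j _ => ?_
          rw [← Matrix.mul_add, h4, Matrix.mul_one]
        · simp only [lift_castSucc]
          rw [e1, e2, ← Matrix.mul_add, h4, Matrix.mul_one]

theorem Lift_eq_mconv_freeExt {L : GSet g} (hL : IsSelfAdjointSet L) (hc : IsMatrixConvex L)
    (n : ℕ) : Lift L n = mconv (freeExt (Lift L)) n := by
  apply Set.Subset.antisymm
  · have h1 : ∀ n, graph L n ⊆ mconv (freeExt (Lift L)) n := by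
      rintro n X ⟨Z, hZ, rfl⟩
      have hn : 0 < n := by
        rcases Nat.eq_zero_or_pos n with h | h
        · subst h; rw [hL.1] at hZ; exact absurd hZ (Set.notMem_empty _)
        · exact h
      exact lift_mem_mconv_freeExt hL hc n hn Z hZ
    exact (mconv_mono h1 n).trans (mconv_mconv n)
  · exact (mconv_mono (fun n X hX => hX.1) n).trans (mconv_mconv n)

end Pool.Agent.H3.MatConv
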