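import Mathlib

/-!
Definitions for matrix convex sets, free extreme points and projections
(problem MP_c7d282_an).
-/

open Matrix

namespace Pool.Agent.H3.MatConv

/-- The `g`-tuples of complex `n × n` matrices. -/
abbrev Tup (g n : ℕ) : Type := Fin g → Matrix (Fin n) (Fin n) ℂ

/-- A graded set of `g`-tuples; `K n` is the level `K(n)`. -/
abbrev GSet (g : ℕ) : Type := (n : ℕ) → Set (Tup g n)

/-- `K = ⋃_{n ≥ 1} K(n)` with `K(n) ⊆ SM_n^g`: there is nothing at level `0` and every tuple in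
`K` consists of self-adjoint matrices. -/
def IsSelfAdjointSet {g : ℕ} (K : GSet g) : Prop :=
  K 0 = ∅ ∧ ∀ n : ℕ, ∀ X ∈ K n, ∀ j : Fin g, (X j).IsHermitian

/-- `X` is the (finite) matrix convex combination `∑ i, (V i)ᴴ (Y i) (V i)` of the tuples `Y i`
of size `m i`, where `∑ i, (V i)ᴴ (V i) = I_n`. -/
def IsMatrixConvexComb {g n : ℕ} (X : Tup g n) (ι : Type) [Fintype ι] (m : ι → ℕ)
    (Y : ∀ i : ι, Tup g (m i)) (V : ∀ i : ι, Matrix (Fin (m i)) (Fin n) ℂ) : Prop :=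
  ∑ i, (V i)ᴴ * V i = 1 ∧ ∀ j : Fin g, X j = ∑ i, (V i)ᴴ * Y i j * V i

/-- The matrix convex hull of `S`: all (finite) matrix convex combinations of elements of `S`,
at the levels `n ≥ 1` (no closure is taken). -/
def mconv {g : ℕ} (S : GSet g) : GSet g := fun n =>
  {X | 0 < n ∧ ∃ (ι : Type) (_ : Fintype ι) (m : ι → ℕ) (Y : ∀ i : ι, Tup g (m i))
    (V : ∀ i : ι, Matrix (Fin (m i)) (Fin n) ℂ),
    (∀ i, Y i ∈ S (m i)) ∧ IsMatrixConvexComb X ι m Y V}

/-- `K` is closed under matrix convex combinations. -/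
def IsMatrixConvex {g : ℕ} (K : GSet g) : Prop := ∀ n : ℕ, mconv K n ⊆ K n

/-- Every level of `K` is closed and bounded. -/
def IsClosedBounded {g : ℕ} (K : GSet g) : Prop :=
  ∀ n : ℕ, IsClosed (K n) ∧ ∃ C : ℝ, ∀ X ∈ K n, ∀ (j : Fin g) (a b : Fin n), ‖X j a b‖ ≤ C

/-- The tuples `Y` (of size `m`) and `X` (of size `n`) are unitarily equivalent. -/
def UnitarilyEquivalent {g m n : ℕ} (Y : Tup g m) (X : Tup g n) : Prop :=
  ∃ U : Matrix (Fin m) (Fin n) ℂ, Uᴴ * U = 1 ∧ U * Uᴴ = 1 ∧ ∀ j : Fin g, Y j = U * X j * Uᴴ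

/-- The tuple `Y` (of size `m`) is unitarily equivalent to the direct sum `X ⊕ Z` of the tuples
`X` (of size `n`) and `Z` (of size `l`). -/
def UnitarilyEquivalentSum {g m n l : ℕ} (Y : Tup g m) (X : Tup g n) (Z : Tup g l) : Prop :=
  ∃ U : Matrix (Fin m) (Fin n ⊕ Fin l) ℂ, Uᴴ * U = 1 ∧ U * Uᴴ = 1 ∧
    ∀ j : Fin g, Y j = U * Matrix.fromBlocks (X j) 0 0 (Z j) * Uᴴ

/-- The free extreme points of `K`: the tuples `X ∈ K(n)` such that whenever
`X = ∑ i, (V i)ᴴ (Y i) (V i)` is a matrix convex combination with `Y i ∈ K(m i)` and all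
`V i ≠ 0`, then for each `i` either `m i = n` and `Y i` is unitarily equivalent to `X`, or
`m i > n` and `Y i` is unitarily equivalent to `X ⊕ Z` for some `Z ∈ K`. -/
def freeExt {g : ℕ} (K : GSet g) : GSet g := fun n =>
  {X | X ∈ K n ∧ ∀ (ι : Type) (_ : Fintype ι) (m : ι → ℕ) (Y : ∀ i : ι, Tup g (m i))
    (V : ∀ i : ι, Matrix (Fin (m i)) (Fin n) ℂ),
    (∀ i, Y i ∈ K (m i)) → (∀ i, V i ≠ 0) → IsMatrixConvexComb X ι m Y V →
    ∀ i, (m i = n ∧ UnitarilyEquivalent (Y i) X) ∨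
      (n < m i ∧ ∃ (l : ℕ) (Z : Tup g l), Z ∈ K l ∧ UnitarilyEquivalentSum (Y i) X Z)}

/-- The projection of `K`, a set of `(h + k)`-tuples, onto the first `h` coordinates: the tuples
`(X 0, …, X (h - 1))` which can be completed by `k` further matrices to an element of `K`. -/
def proj (h k : ℕ) (K : GSet (h + k)) : GSet h := fun n =>
  {X | ∃ Z ∈ K n, ∀ j : Fin h, X j = Z (Fin.castAdd k j)}

end Pool.Agent.H3.MatConv
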