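import Mathlib

open Matrix

namespace Pool.Agent.H3.MatConv

/-- The matrix whose columns are an orthonormal family. -/
theorem onb_matrix {ι κ : Type*} [Fintype ι] [Fintype κ] [DecidableEq ι] [DecidableEq κ]
    (b : ι → EuclideanSpace ℂ κ) (hb : Orthonormal ℂ b) :
    (Matrix.of fun a k => b k a : Matrix κ ι ℂ)ᴴ * (Matrix.of fun a k => b k a : Matrix κ ι ℂ)
      = 1 := by
  classical
  ext k k'
  have h := (orthonormal_iff_ite.mp hb) k k'
  rw [Matrix.mul_apply]
  simp only [Matrix.conjTranspose_apply, Matrix.of_apply, Matrix.one_apply]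
  rw [← h, PiLp.inner_apply]
  refine Finset.sum_congr rfl fun a _ => ?_
  simp [mul_comm]

/-- A family of `N ≤ card κ` vectors lies in the range of an isometry `ℂ^N → ℂ^κ`. -/
theorem exists_isometry_fixing {κ : Type*} [Fintype κ] [DecidableEq κ] {N : ℕ}
    (hN : N ≤ Fintype.card κ) (w : Fin N → κ → ℂ) :
    ∃ U : Matrix κ (Fin N) ℂ, Uᴴ * U = 1 ∧ ∀ k, (U * Uᴴ) *ᵥ (w k) = w k := by
  classical
  let D := Fintype.card κ
  let f : Fin D → EuclideanSpace ℂ κ := fun i =>
    if h : (i : ℕ) < N then WithLp.toLp 2 (w ⟨i, h⟩) else 0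
  have hcard : Module.finrank ℂ (EuclideanSpace ℂ κ) = Fintype.card (Fin D) := by
    simp [D]
  let b := InnerProductSpace.gramSchmidtOrthonormalBasis hcard f
  let B : Fin N → EuclideanSpace ℂ κ := fun k => b (Fin.castLE hN k)
  have hB : Orthonormal ℂ B := b.orthonormal.comp _ (Fin.castLE_injective hN)
  refine ⟨Matrix.of fun a k => B k a, onb_matrix B hB, fun k => ?_⟩
  -- expansion of w k in the basis b
  have hfk : f (Fin.castLE hN k) = WithLp.toLp 2 (w k) := by
    simp [f]
  have hexp : (WithLp.toLp 2 (w k) : EuclideanSpace ℂ κ)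
      = ∑ i, inner ℂ (b i) (WithLp.toLp 2 (w k) : EuclideanSpace ℂ κ) • b i :=
    (b.sum_repr' _).symm
  have hzero : ∀ i : Fin D, N ≤ (i : ℕ) →
      inner ℂ (b i) (WithLp.toLp 2 (w k) : EuclideanSpace ℂ κ) = 0 := by
    intro i hi
    rw [← hfk]
    apply InnerProductSpace.gramSchmidtOrthonormalBasis_inv_triangular
    rw [Fin.lt_def]
    exact lt_of_lt_of_le k.2 hi
  have hsum : (WithLp.toLp 2 (w k) : EuclideanSpace ℂ κ)
      = ∑ i : Fin N, inner ℂ (B i) (WithLp.toLp 2 (w k) : EuclideanSpace ℂ κ) • B i := by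
    conv_lhs => rw [hexp]
    symm
    rw [← Finset.sum_subset (s₁ := Finset.univ.image (Fin.castLE hN)) (Finset.subset_univ _)]
    · rw [Finset.sum_image]
      intro x _ y _ hxy
      exact Fin.castLE_injective hN hxy
    · intro i _ hi
      have : N ≤ (i : ℕ) := by
        by_contra hlt
        push Not at hlt
        apply hi
        simp only [Finset.mem_image, Finset.mem_univ, true_and]
        exact ⟨⟨i, hlt⟩, by ext; simp⟩
      rw [hzero i this, zero_smul]
  funext a
  have ha := congrArg (fun x : EuclideanSpace ℂ κ => x a) hsum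
  simp only at ha
  rw [ha, Matrix.mulVec, dotProduct]
  simp only [Matrix.mul_apply, Matrix.conjTranspose_apply, Matrix.of_apply]
  rw [WithLp.ofLp_sum]
  simp only [Finset.sum_apply, smul_eq_mul, PiLp.inner_apply, WithLp.ofLp_smul, Pi.smul_apply]
  simp only [Finset.sum_mul]
  rw [Finset.sum_comm]
  refine Finset.sum_congr rfl fun i _ => ?_
  refine Finset.sum_congr rfl fun c _ => ?_
  simp
  ring

/-- completing an isometry to a unitary -/
theorem exists_complement {m n l : ℕ} (hl : n + l = m) (U : Matrix (Fin m) (Fin n) ℂ)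
    (hU : Uᴴ * U = 1) :
    ∃ U' : Matrix (Fin m) (Fin l) ℂ, U'ᴴ * U' = 1 ∧ Uᴴ * U' = 0 ∧ U'ᴴ * U = 0 ∧
      U * Uᴴ + U' * U'ᴴ = 1 := by
  classical
  let v : Fin n ⊕ Fin l → EuclideanSpace ℂ (Fin m) :=
    Sum.elim (fun k => WithLp.toLp 2 (fun a => U a k)) (fun _ => 0)
  have hcard : Module.finrank ℂ (EuclideanSpace ℂ (Fin m)) = Fintype.card (Fin n ⊕ Fin l) := by
    simp [hl]
  have hUo : Orthonormal ℂ (fun k : Fin n =>
      (WithLp.toLp 2 (fun a => U a k) : EuclideanSpace ℂ (Fin m))) := by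
    rw [orthonormal_iff_ite]
    intro k k'
    have := congrFun (congrFun hU k) k'
    rw [Matrix.mul_apply, Matrix.one_apply] at this
    rw [← this, PiLp.inner_apply]
    refine Finset.sum_congr rfl fun a _ => ?_
    simp [mul_comm]
  have hv : Orthonormal ℂ ((Set.range (Sum.inl : Fin n → Fin n ⊕ Fin l)).domRestrict v) := by
    rw [orthonormal_iff_ite]
    rintro ⟨_, ⟨k, rfl⟩⟩ ⟨_, ⟨k', rfl⟩⟩
    have := (orthonormal_iff_ite.mp hUo) k k'
    simp only [Set.domRestrict_apply, v, Sum.elim_inl, Subtype.mk.injEq, Sum.inl.injEq]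
    exact this
  obtain ⟨b, hb⟩ := Orthonormal.exists_orthonormalBasis_extension_of_card_eq hcard hv
  let W : Matrix (Fin m) (Fin n ⊕ Fin l) ℂ := Matrix.of fun a k => b k a
  have hW : Wᴴ * W = 1 := onb_matrix b b.orthonormal
  have hW' : W * Wᴴ = 1 :=
    (Matrix.mul_eq_one_comm_of_card_eq _ _ _ (by simp [hl])).mp hW
  have hWU : ∀ a k, W a (Sum.inl k) = U a k := by
    intro a k
    simp only [W, Matrix.of_apply]
    rw [hb (Sum.inl k) ⟨k, rfl⟩]
    simp [v]
  let U' : Matrix (Fin m) (Fin l) ℂ := Matrix.of fun a k => W a (Sum.inr k)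
  refine ⟨U', ?_, ?_, ?_, ?_⟩
  · ext i j
    have := congrFun (congrFun hW (Sum.inr i)) (Sum.inr j)
    rw [Matrix.mul_apply] at this ⊢
    simpa [U', Matrix.one_apply] using this
  · ext i j
    have := congrFun (congrFun hW (Sum.inl i)) (Sum.inr j)
    rw [Matrix.mul_apply] at this ⊢
    simpa [U', Matrix.one_apply, hWU] using this
  · ext i j
    have := congrFun (congrFun hW (Sum.inr i)) (Sum.inl j)
    rw [Matrix.mul_apply] at this ⊢
    simpa [U', Matrix.one_apply, hWU] using this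
  · ext i j
    have := congrFun (congrFun hW' i) j
    rw [Matrix.mul_apply, Fintype.sum_sum_type] at this
    rw [Matrix.add_apply, Matrix.mul_apply, Matrix.mul_apply, ← this]
    simp [U', hWU]

end Pool.Agent.H3.MatConv
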