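import Pool.Agent.H3.MatConvBasic
import Pool.Agent.H3.MatConvLA

open Matrix
open scoped ComplexOrder

namespace Pool.Agent.H3.MatConv

variable {g : ℕ}

/-- If a finite sum of matrices of the form `Eᴴ E` vanishes, so does every `E`. -/
theorem sum_gram_eq_zero {σ : Type*} [Fintype σ] {q : σ → ℕ} {n : ℕ}
    (E : ∀ s, Matrix (Fin (q s)) (Fin n) ℂ) (h : ∑ s, (E s)ᴴ * E s = 0) (s : σ) : E s = 0 := by
  have htr : ∑ s, ((E s)ᴴ * E s).trace = 0 := by
    rw [← Matrix.trace_sum, h, Matrix.trace_zero]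
  have hre : ∀ s, ((E s)ᴴ * E s).trace = ((∑ i, ∑ j, ‖E s j i‖ ^ 2 : ℝ) : ℂ) := by
    intro s
    rw [Matrix.trace]
    simp only [Matrix.diag_apply, Matrix.mul_apply, Matrix.conjTranspose_apply]
    push_cast
    refine Finset.sum_congr rfl fun i _ => Finset.sum_congr rfl fun j _ => ?_
    rw [← Complex.conj_mul']
    rfl
  simp only [hre] at htr
  have htr' : ∑ s, (∑ i, ∑ j, ‖E s j i‖ ^ 2 : ℝ) = 0 := by
    have := htr
    exact_mod_cast this
  rw [Finset.sum_eq_zero_iff_of_nonneg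
    (fun s _ => Finset.sum_nonneg fun i _ => Finset.sum_nonneg fun j _ => by positivity)] at htr'
  have h1 := htr' s (Finset.mem_univ _)
  rw [← Matrix.trace_conjTranspose_mul_self_eq_zero_iff, hre s, h1, Complex.ofReal_zero]

/-- The multiplicativity step. -/
theorem intertwine {σ : Type*} [Fintype σ] {q : σ → ℕ} {n : ℕ}
    (D : ∀ s, Tup g (q s)) (T : ∀ s, Matrix (Fin (q s)) (Fin n) ℂ) (X : Tup g n)
    (hD : ∀ s j, (D s j).IsHermitian) (hX : ∀ j, (X j).IsHermitian)
    (h1 : ∑ s, (T s)ᴴ * T s = 1) (h2 : ∀ j, X j = ∑ s, (T s)ᴴ * D s j * T s)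
    (h3 : ∑ j, X j * X j = ∑ s, (T s)ᴴ * (∑ j, D s j * D s j) * T s) (s : σ) (j : Fin g) :
    D s j * T s = T s * X j := by
  have key : ∑ p : σ × Fin g, (D p.1 p.2 * T p.1 - T p.1 * X p.2)ᴴ *
      (D p.1 p.2 * T p.1 - T p.1 * X p.2) = 0 := by
    rw [Fintype.sum_prod_type_right]
    have hj : ∀ j : Fin g, ∑ s, (D s j * T s - T s * X j)ᴴ * (D s j * T s - T s * X j)
        = ∑ s, (T s)ᴴ * (D s j * D s j) * T s - X j * X j := by
      intro j
      have e : ∀ s, (D s j * T s - T s * X j)ᴴ * (D s j * T s - T s * X j)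
          = (T s)ᴴ * (D s j * D s j) * T s - ((T s)ᴴ * D s j * T s) * X j
            - X j * ((T s)ᴴ * D s j * T s) + X j * ((T s)ᴴ * T s) * X j := by
        intro s
        rw [Matrix.conjTranspose_sub, Matrix.conjTranspose_mul, Matrix.conjTranspose_mul,
          (hD s j).eq, (hX j).eq]
        simp only [Matrix.sub_mul, Matrix.mul_sub, Matrix.mul_assoc]
        abel
      simp only [e, Finset.sum_add_distrib, Finset.sum_sub_distrib]
      rw [← Matrix.sum_mul, ← Matrix.mul_sum, ← Matrix.sum_mul, ← Matrix.mul_sum, h1, ← h2 j]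
      simp
    simp only [hj, Finset.sum_sub_distrib]
    rw [h3, Finset.sum_comm]
    simp only [Matrix.mul_sum, Matrix.sum_mul]
    simp
  have := sum_gram_eq_zero (q := fun p : σ × Fin g => q p.1)
    (fun p : σ × Fin g => D p.1 p.2 * T p.1 - T p.1 * X p.2) key (s, j)
  exact sub_eq_zero.mp this

/-- An isometric intertwiner splits off a direct summand. -/
theorem split_off {K : GSet g} (hK : IsMatrixConvex K) {m n : ℕ}
    {Y : Tup g m} (hY : Y ∈ K m) (hYsa : ∀ j, (Y j).IsHermitian) (X : Tup g n)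
    (U : Matrix (Fin m) (Fin n) ℂ) (hU : Uᴴ * U = 1) (hYU : ∀ j, Y j * U = U * X j) :
    (m = n ∧ UnitarilyEquivalent Y X) ∨
      (n < m ∧ ∃ (l : ℕ) (Z : Tup g l), Z ∈ K l ∧ UnitarilyEquivalentSum Y X Z) := by
  have hX : ∀ j, X j = Uᴴ * Y j * U := by
    intro j
    rw [Matrix.mul_assoc, hYU j, ← Matrix.mul_assoc, hU, Matrix.one_mul]
  have hUY : ∀ j, Uᴴ * Y j = X j * Uᴴ := by
    intro j
    have := congrArg Matrix.conjTranspose (hYU j)
    rw [Matrix.conjTranspose_mul, Matrix.conjTranspose_mul, (hYsa j).eq] at this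
    rw [this]
    congr 1
    rw [hX j, Matrix.conjTranspose_mul, Matrix.conjTranspose_mul, (hYsa j).eq,
      Matrix.conjTranspose_conjTranspose, Matrix.mul_assoc]
  -- n ≤ m
  have hle : n ≤ m := by
    have h1 : (Uᴴ * U).rank = n := by rw [hU, Matrix.rank_one]; simp
    have h2 : (Uᴴ * U).rank ≤ m := by
      refine (Matrix.rank_mul_le_left _ _).trans ?_
      refine (Matrix.rank_le_width _).trans (le_refl _)
    omega
  rcases Nat.eq_or_lt_of_le hle with h | h
  · left
    subst h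
    refine ⟨rfl, U, hU, (mul_eq_one_comm).mp hU, fun j => ?_⟩
    rw [← hYU j, Matrix.mul_assoc, (mul_eq_one_comm).mp hU, Matrix.mul_one]
  · right
    refine ⟨h, m - n, ?_⟩
    obtain ⟨U', h1, h2, h3, h4⟩ := exists_complement (l := m - n) (by omega) U hU
    refine ⟨fun j => U'ᴴ * Y j * U', compress_mem hK (by omega) hY U' h1, ?_⟩
    refine ⟨Matrix.fromCols U U', ?_, ?_, ?_⟩
    · rw [Matrix.conjTranspose_fromCols_eq_fromRows_conjTranspose, Matrix.fromRows_mul_fromCols,
        hU, h1, h2, h3, Matrix.fromBlocks_one]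
    · rw [Matrix.conjTranspose_fromCols_eq_fromRows_conjTranspose, Matrix.fromCols_mul_fromRows, h4]
    · intro j
      rw [Matrix.conjTranspose_fromCols_eq_fromRows_conjTranspose, Matrix.fromCols_mul_fromBlocks,
        Matrix.fromCols_mul_fromRows]
      simp only [Matrix.mul_zero, add_zero, zero_add]
      have hc : U' * U'ᴴ = 1 - U * Uᴴ := by rw [← h4]; abel
      have hP : U' * U'ᴴ * Y j = Y j * (U' * U'ᴴ) := by
        rw [hc, Matrix.sub_mul, Matrix.mul_sub, Matrix.one_mul, Matrix.mul_one]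
        congr 1
        rw [Matrix.mul_assoc, hUY j, ← Matrix.mul_assoc, ← hYU j, Matrix.mul_assoc]
      have e1 : U' * (U'ᴴ * Y j * U') * U'ᴴ = Y j * (U' * U'ᴴ) := by
        calc U' * (U'ᴴ * Y j * U') * U'ᴴ = (U' * U'ᴴ * Y j) * (U' * U'ᴴ) := by
              simp only [Matrix.mul_assoc]
          _ = Y j * ((U' * U'ᴴ) * (U' * U'ᴴ)) := by rw [hP]; simp only [Matrix.mul_assoc]
          _ = Y j * (U' * (U'ᴴ * U') * U'ᴴ) := by simp only [Matrix.mul_assoc]
          _ = Y j * (U' * U'ᴴ) := by rw [h1, Matrix.mul_one]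
      rw [e1, ← hYU j, Matrix.mul_assoc, ← Matrix.mul_add, h4, Matrix.mul_one]

/-- Irreducibility: the commutant is trivial. -/
def Irred {n : ℕ} (Z : Tup g n) : Prop :=
  ∀ C : Matrix (Fin n) (Fin n) ℂ, (∀ j, C * Z j = Z j * C) → ∃ c : ℂ, C = c • 1

/-- Lifts of irreducible tuples are free extreme. -/
theorem lift_mem_freeExt {L : GSet g} (hL : IsSelfAdjointSet L) {n : ℕ} (hn : 0 < n)
    {Z : Tup g n} (hZ : Z ∈ L n) (hirr : Irred Z) : lift Z ∈ freeExt (Lift L) n := by
  refine ⟨subset_mconv n hn ⟨Z, hZ, rfl⟩, ?_⟩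
  intro ι hι m Y V hY hV hc i
  obtain ⟨hc1, hc2⟩ := hc
  have hYsa : ∀ i j, (Y i j).IsHermitian := fun i j => (Lift_selfAdjoint hL).2 _ _ (hY i) j
  have hYmem := hY
  choose hm κ hκ p G W hG hW1 hW2 using hY
  choose D hD hDG using hG
  -- the intertwining relation
  have hint : ∀ (s : Σ i, κ i) (j : Fin g),
      D s.1 s.2 j * (W s.1 s.2 * V s.1) = (W s.1 s.2 * V s.1) * Z j := by
    refine intertwine (σ := Σ i, κ i) (q := fun s => p s.1 s.2) (fun s => D s.1 s.2)
      (fun s => W s.1 s.2 * V s.1) Z (fun s j => hL.2 _ _ (hD s.1 s.2) j)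
      (fun j => hL.2 _ _ hZ j) ?_ ?_ ?_
    · rw [Fintype.sum_sigma, ← hc1]
      refine Finset.sum_congr rfl fun i _ => ?_
      have : ∀ k, (W i k * V i)ᴴ * (W i k * V i) = (V i)ᴴ * ((W i k)ᴴ * W i k) * V i := by
        intro k
        simp only [Matrix.conjTranspose_mul, Matrix.mul_assoc]
      simp only [this]
      rw [← Matrix.sum_mul, ← Matrix.mul_sum, hW1 i, Matrix.mul_one]
    · intro j
      have h0 := hc2 j.castSucc
      rw [lift_castSucc] at h0
      rw [h0, Fintype.sum_sigma]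
      refine Finset.sum_congr rfl fun i _ => ?_
      have : ∀ k, (W i k * V i)ᴴ * D i k j * (W i k * V i)
          = (V i)ᴴ * ((W i k)ᴴ * G i k j.castSucc * W i k) * V i := by
        intro k
        rw [← hDG i k, lift_castSucc]
        simp only [Matrix.conjTranspose_mul, Matrix.mul_assoc]
      simp only [this]
      rw [← Matrix.sum_mul, ← Matrix.mul_sum, ← hW2 i]
    · have h0 := hc2 (Fin.last g)
      rw [lift_last] at h0
      rw [h0, Fintype.sum_sigma]
      refine Finset.sum_congr rfl fun i _ => ?_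
      have : ∀ k, (W i k * V i)ᴴ * (∑ j, D i k j * D i k j) * (W i k * V i)
          = (V i)ᴴ * ((W i k)ᴴ * G i k (Fin.last g) * W i k) * V i := by
        intro k
        rw [← hDG i k, lift_last]
        simp only [Matrix.conjTranspose_mul, Matrix.mul_assoc]
      simp only [this]
      rw [← Matrix.sum_mul, ← Matrix.mul_sum, ← hW2 i]
  -- hence `Y i` intertwines
  have hYV : ∀ j, Y i j * V i = V i * lift Z j := by
    intro j
    refine Fin.lastCases ?_ (fun j => ?_) j
    · rw [hW2 i, lift_last, Matrix.sum_mul]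
      have : ∀ k, (W i k)ᴴ * G i k (Fin.last g) * W i k * V i
          = ((W i k)ᴴ * W i k) * (V i * ∑ j, Z j * Z j) := by
        intro k
        rw [← hDG i k, lift_last]
        have h5 : (∑ j, D i k j * D i k j) * (W i k * V i)
            = (W i k * V i) * ∑ j, Z j * Z j := by
          rw [Matrix.sum_mul, Matrix.mul_sum]
          refine Finset.sum_congr rfl fun j _ => ?_
          rw [Matrix.mul_assoc, hint ⟨i, k⟩ j, ← Matrix.mul_assoc, hint ⟨i, k⟩ j,
            Matrix.mul_assoc]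
        calc (W i k)ᴴ * (∑ j, D i k j * D i k j) * W i k * V i
            = (W i k)ᴴ * ((∑ j, D i k j * D i k j) * (W i k * V i)) := by
              simp only [Matrix.mul_assoc]
          _ = _ := by rw [h5]; simp only [Matrix.mul_assoc]
      simp only [this]
      rw [← Matrix.sum_mul, hW1 i, Matrix.one_mul]
    · rw [hW2 i, lift_castSucc, Matrix.sum_mul]
      have : ∀ k, (W i k)ᴴ * G i k j.castSucc * W i k * V i
          = ((W i k)ᴴ * W i k) * (V i * Z j) := by
        intro k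
        rw [← hDG i k, lift_castSucc]
        calc (W i k)ᴴ * D i k j * W i k * V i
            = (W i k)ᴴ * (D i k j * (W i k * V i)) := by simp only [Matrix.mul_assoc]
          _ = _ := by rw [hint ⟨i, k⟩ j]; simp only [Matrix.mul_assoc]
      simp only [this]
      rw [← Matrix.sum_mul, hW1 i, Matrix.one_mul]
  -- the commutant
  have hlsa : ∀ j, (lift Z j).IsHermitian := fun j =>
    (graph_selfAdjoint hL).2 _ _ ⟨Z, hZ, rfl⟩ j
  have hVY : ∀ j, (V i)ᴴ * Y i j = lift Z j * (V i)ᴴ := by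
    intro j
    have := congrArg Matrix.conjTranspose (hYV j)
    rw [Matrix.conjTranspose_mul, Matrix.conjTranspose_mul, (hYsa i j).eq, (hlsa j).eq] at this
    exact this
  obtain ⟨c, hcc⟩ := hirr ((V i)ᴴ * V i) (by
    intro j
    have h6 := hYV j.castSucc
    have h7 := hVY j.castSucc
    rw [lift_castSucc] at h6 h7
    rw [Matrix.mul_assoc, ← h6, ← Matrix.mul_assoc, h7, Matrix.mul_assoc])
  -- c is a positive real
  let a : Fin n := ⟨0, hn⟩
  have hcval : c = ((∑ b, ‖V i b a‖ ^ 2 : ℝ) : ℂ) := by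
    have := congrFun (congrFun hcc a) a
    rw [Matrix.mul_apply] at this
    simp only [Matrix.conjTranspose_apply, Matrix.smul_apply, Matrix.one_apply_eq, smul_eq_mul,
      mul_one] at this
    rw [← this]
    push_cast
    refine Finset.sum_congr rfl fun b _ => ?_
    rw [← Complex.conj_mul']
    rfl
  set r : ℝ := ∑ b, ‖V i b a‖ ^ 2 with hr
  have hr0 : 0 ≤ r := Finset.sum_nonneg fun b _ => by positivity
  have hrne : r ≠ 0 := by
    intro h0
    apply hV i
    rw [← Matrix.conjTranspose_mul_self_eq_zero, hcc, hcval, h0]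
    simp
  have hrpos : 0 < r := lt_of_le_of_ne hr0 (Ne.symm hrne)
  let t : ℂ := ((Real.sqrt r)⁻¹ : ℝ)
  have ht : star t * t * c = 1 := by
    rw [hcval]
    simp only [t, Complex.star_def, Complex.conj_ofReal]
    rw [← Complex.ofReal_mul, ← Complex.ofReal_mul, ← mul_inv, Real.mul_self_sqrt hr0,
      inv_mul_cancel₀ hrne, Complex.ofReal_one]
  refine split_off (Lift_matrixConvex L) (hYmem i) (hYsa i) (lift Z) (t • V i) ?_ ?_
  · rw [Matrix.conjTranspose_smul, Matrix.smul_mul, Matrix.mul_smul, hcc, smul_smul, smul_smul,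
      ht, one_smul]
  · intro j
    rw [Matrix.mul_smul, hYV j, Matrix.smul_mul]

end Pool.Agent.H3.MatConv
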