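import Pool.Agent.H3.MatConvClosed

open Matrix
open scoped ComplexOrder

namespace Pool.Agent.H3.MatConv

/-- the matrix `X 0 + i X 1` -/
noncomputable def A₁ {n : ℕ} (X : Tup 4 n) : Matrix (Fin n) (Fin n) ℂ := X 0 + Complex.I • X 1

/-- the matrix `X 2 + i X 3` -/
noncomputable def A₂ {n : ℕ} (X : Tup 4 n) : Matrix (Fin n) (Fin n) ℂ := X 2 + Complex.I • X 3

/-- the set of row contractions, in self-adjoint coordinates -/
def rowBall : GSet 4 := fun n =>
  {X | 0 < n ∧ (∀ j, (X j).IsHermitian) ∧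
    (1 - (A₁ X * (A₁ X)ᴴ + A₂ X * (A₂ X)ᴴ)).PosSemidef}

theorem rowBall_selfAdjoint : IsSelfAdjointSet rowBall := by
  refine ⟨?_, fun n X hX => hX.2.1⟩
  ext X
  simp only [Set.mem_empty_iff_false, iff_false]
  intro h
  exact absurd h.1 (lt_irrefl _)

theorem comb_A {n : ℕ} {ι : Type} [Fintype ι] {m : ι → ℕ} {Y : ∀ i : ι, Tup 4 (m i)}
    {V : ∀ i : ι, Matrix (Fin (m i)) (Fin n) ℂ} {X : Tup 4 n}
    (hX : ∀ j, X j = ∑ i, (V i)ᴴ * Y i j * V i) (a b : Fin 4) :
    X a + Complex.I • X b = ∑ i, (V i)ᴴ * (Y i a + Complex.I • Y i b) * V i := by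
  rw [hX a, hX b, Finset.smul_sum, ← Finset.sum_add_distrib]
  refine Finset.sum_congr rfl fun i _ => ?_
  rw [Matrix.mul_add, Matrix.add_mul, Matrix.mul_smul, Matrix.smul_mul]

theorem defect_comb {n : ℕ} {ι : Type} [Fintype ι] {m : ι → ℕ}
    (B : ∀ i : ι, Matrix (Fin (m i)) (Fin (m i)) ℂ)
    (V : ∀ i : ι, Matrix (Fin (m i)) (Fin n) ℂ) (A : Matrix (Fin n) (Fin n) ℂ)
    (h1 : ∑ i, (V i)ᴴ * V i = 1) (hA : A = ∑ i, (V i)ᴴ * B i * V i) :
    ∑ i, (V i)ᴴ * (B i * (B i)ᴴ) * V i - A * Aᴴ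
      = ∑ i, ((B i)ᴴ * V i - V i * Aᴴ)ᴴ * ((B i)ᴴ * V i - V i * Aᴴ) := by
  have hAs : Aᴴ = ∑ i, (V i)ᴴ * (B i)ᴴ * V i := by
    rw [hA, Matrix.conjTranspose_sum]
    refine Finset.sum_congr rfl fun i _ => ?_
    simp only [Matrix.conjTranspose_mul, Matrix.conjTranspose_conjTranspose, Matrix.mul_assoc]
  have e : ∀ i, ((B i)ᴴ * V i - V i * Aᴴ)ᴴ * ((B i)ᴴ * V i - V i * Aᴴ)
      = (V i)ᴴ * (B i * (B i)ᴴ) * V i - ((V i)ᴴ * B i * V i) * Aᴴ
        - A * ((V i)ᴴ * (B i)ᴴ * V i) + A * ((V i)ᴴ * V i) * Aᴴ := by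
    intro i
    rw [Matrix.conjTranspose_sub, Matrix.conjTranspose_mul, Matrix.conjTranspose_mul]
    simp only [Matrix.sub_mul, Matrix.mul_sub, Matrix.mul_assoc,
      Matrix.conjTranspose_conjTranspose]
    abel
  simp only [e, Finset.sum_add_distrib, Finset.sum_sub_distrib]
  rw [← Matrix.sum_mul, ← Matrix.mul_sum, ← Matrix.sum_mul, ← Matrix.mul_sum, h1, ← hA, ← hAs]
  simp

theorem rowBall_matrixConvex : IsMatrixConvex rowBall := by
  rintro n X ⟨hn, ι, hι, m, Y, V, hY, hc1, hc2⟩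
  refine ⟨hn, fun j => isHermitian_of_mem_mconv rowBall_selfAdjoint
    ⟨hn, ι, hι, m, Y, V, hY, hc1, hc2⟩ j, ?_⟩
  have h1 := defect_comb (fun i => A₁ (Y i)) V (A₁ X) hc1 (comb_A hc2 0 1)
  have h2 := defect_comb (fun i => A₂ (Y i)) V (A₂ X) hc1 (comb_A hc2 2 3)
  have key : (1 - (A₁ X * (A₁ X)ᴴ + A₂ X * (A₂ X)ᴴ))
      = ∑ i, (V i)ᴴ * (1 - (A₁ (Y i) * (A₁ (Y i))ᴴ + A₂ (Y i) * (A₂ (Y i))ᴴ)) * V i
        + (∑ i, ((A₁ (Y i))ᴴ * V i - V i * (A₁ X)ᴴ)ᴴ * ((A₁ (Y i))ᴴ * V i - V i * (A₁ X)ᴴ)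
        + ∑ i, ((A₂ (Y i))ᴴ * V i - V i * (A₂ X)ᴴ)ᴴ * ((A₂ (Y i))ᴴ * V i - V i * (A₂ X)ᴴ)) := by
    rw [← h1, ← h2]
    have e : ∀ i, (V i)ᴴ * (1 - (A₁ (Y i) * (A₁ (Y i))ᴴ + A₂ (Y i) * (A₂ (Y i))ᴴ)) * V i
        = (V i)ᴴ * V i - (V i)ᴴ * (A₁ (Y i) * (A₁ (Y i))ᴴ) * V i
          - (V i)ᴴ * (A₂ (Y i) * (A₂ (Y i))ᴴ) * V i := by
      intro i
      simp only [Matrix.mul_sub, Matrix.sub_mul, Matrix.mul_add, Matrix.add_mul, Matrix.mul_one]
      abel
    simp only [e, Finset.sum_sub_distrib, hc1]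
    abel
  rw [key]
  refine (Matrix.posSemidef_sum _ fun i _ => ((hY i).2.2).conjTranspose_mul_mul_same _).add
    ((Matrix.posSemidef_sum _ fun i _ => Matrix.posSemidef_conjTranspose_mul_self _).add
      (Matrix.posSemidef_sum _ fun i _ => Matrix.posSemidef_conjTranspose_mul_self _))

theorem entry_le_of_psd {n : ℕ} {A B : Matrix (Fin n) (Fin n) ℂ}
    (h : (1 - (A * Aᴴ + B * Bᴴ)).PosSemidef) (a b : Fin n) : ‖A a b‖ ≤ 1 ∧ ‖B a b‖ ≤ 1 := by
  have h1 := h.diag_nonneg (i := a)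
  have hA : (A * Aᴴ) a a = ((∑ c, ‖A a c‖ ^ 2 : ℝ) : ℂ) := by
    rw [Matrix.mul_apply]
    push_cast
    refine Finset.sum_congr rfl fun b _ => ?_
    rw [Matrix.conjTranspose_apply, ← Complex.mul_conj']
    rfl
  have hB : (B * Bᴴ) a a = ((∑ c, ‖B a c‖ ^ 2 : ℝ) : ℂ) := by
    rw [Matrix.mul_apply]
    push_cast
    refine Finset.sum_congr rfl fun b _ => ?_
    rw [Matrix.conjTranspose_apply, ← Complex.mul_conj']
    rfl
  rw [Matrix.sub_apply, Matrix.add_apply, hA, hB, Matrix.one_apply_eq] at h1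
  have h2 : (0 : ℝ) ≤ 1 - (∑ c, ‖A a c‖ ^ 2 + ∑ c, ‖B a c‖ ^ 2) := by
    exact_mod_cast h1
  have h3 : ‖A a b‖ ^ 2 ≤ ∑ c, ‖A a c‖ ^ 2 :=
    Finset.single_le_sum (f := fun c => ‖A a c‖ ^ 2) (fun c _ => by positivity)
      (Finset.mem_univ b)
  have h4 : ‖B a b‖ ^ 2 ≤ ∑ c, ‖B a c‖ ^ 2 :=
    Finset.single_le_sum (f := fun c => ‖B a c‖ ^ 2) (fun c _ => by positivity)
      (Finset.mem_univ b)
  have h5 : 0 ≤ ‖A a b‖ ^ 2 := by positivity
  have h6 : 0 ≤ ‖B a b‖ ^ 2 := by positivity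
  constructor
  · have := norm_nonneg (A a b)
    nlinarith
  · have := norm_nonneg (B a b)
    nlinarith

theorem herm_entry_bound {n : ℕ} {P Q : Matrix (Fin n) (Fin n) ℂ} (hP : P.IsHermitian)
    (hQ : Q.IsHermitian) (h : ∀ a b, ‖(P + Complex.I • Q) a b‖ ≤ 1) (a b : Fin n) :
    ‖P a b‖ ≤ 1 ∧ ‖Q a b‖ ≤ 1 := by
  have h1 := h a b
  have h2 := h b a
  have hPba : P b a = star (P a b) := (hP.apply b a).symm
  have hQba : Q b a = star (Q a b) := (hQ.apply b a).symm
  simp only [Matrix.add_apply, Matrix.smul_apply, smul_eq_mul] at h1 h2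
  rw [hPba, hQba] at h2
  have h3 : ‖P a b - Complex.I * Q a b‖ ≤ 1 := by
    have : ‖star (P a b - Complex.I * Q a b)‖ ≤ 1 := by
      rw [star_sub, star_mul', Complex.star_def, Complex.conj_I, sub_eq_add_neg, neg_mul, neg_neg]
      exact h2
    rwa [norm_star] at this
  have e1 : P a b = ((P a b + Complex.I * Q a b) + (P a b - Complex.I * Q a b)) / 2 := by ring
  have e2 : Complex.I * Q a b
      = ((P a b + Complex.I * Q a b) - (P a b - Complex.I * Q a b)) / 2 := by ring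
  constructor
  · rw [e1, norm_div]
    have := norm_add_le (P a b + Complex.I * Q a b) (P a b - Complex.I * Q a b)
    simp only [Complex.norm_ofNat]
    linarith
  · have : ‖Complex.I * Q a b‖ ≤ 1 := by
      rw [e2, norm_div]
      have := norm_sub_le (P a b + Complex.I * Q a b) (P a b - Complex.I * Q a b)
      simp only [Complex.norm_ofNat]
      linarith
    rwa [norm_mul, Complex.norm_I, one_mul] at this

theorem isClosed_posSemidef_preimage {α : Type*} [TopologicalSpace α] {n : ℕ}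
    (F : α → Matrix (Fin n) (Fin n) ℂ) (hF : Continuous F) :
    IsClosed {x | (F x).PosSemidef} := by
  have : {x | (F x).PosSemidef}
      = {x | (F x)ᴴ = F x} ∩ ⋂ v : Fin n → ℂ, {x | 0 ≤ star v ⬝ᵥ (F x *ᵥ v)} := by
    ext x
    rw [Set.mem_inter_iff, Set.mem_iInter]
    exact Matrix.posSemidef_iff_dotProduct_mulVec
  rw [this]
  refine (isClosed_eq (by fun_prop) hF).inter (isClosed_iInter fun v => ?_)
  refine isClosed_le continuous_const ?_
  unfold dotProduct Matrix.mulVec dotProduct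
  fun_prop

theorem rowBall_closedBounded : IsClosedBounded rowBall := by
  intro n
  refine ⟨?_, 1, ?_⟩
  · rcases Nat.eq_zero_or_pos n with h | hn
    · subst h
      rw [rowBall_selfAdjoint.1]
      exact isClosed_empty
    · have : rowBall n = (⋂ j, {X : Tup 4 n | (X j)ᴴ = X j}) ∩
          {X | (1 - (A₁ X * (A₁ X)ᴴ + A₂ X * (A₂ X)ᴴ)).PosSemidef} := by
        ext X
        rw [Set.mem_inter_iff, Set.mem_iInter]
        constructor
        · intro h
          exact ⟨h.2.1, h.2.2⟩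
        · intro h
          exact ⟨hn, h.1, h.2⟩
      rw [this]
      refine (isClosed_iInter fun j => isClosed_eq (by fun_prop) (by fun_prop)).inter ?_
      apply isClosed_posSemidef_preimage
      unfold A₁ A₂
      fun_prop
  · intro X hX j a b
    have h := entry_le_of_psd hX.2.2
    have h1 := herm_entry_bound (hX.2.1 0) (hX.2.1 1) (fun a b => (h a b).1) a b
    have h2 := herm_entry_bound (hX.2.1 2) (hX.2.1 3) (fun a b => (h a b).2) a b
    fin_cases j
    · exact h1.1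
    · exact h1.2
    · exact h2.1
    · exact h2.2

theorem zero_mem_rowBall : (0 : Tup 4 1) ∈ rowBall 1 := by
  refine ⟨one_pos, fun j => ?_, ?_⟩
  · simp [Matrix.IsHermitian]
  · simp only [A₁, A₂, Pi.zero_apply, smul_zero, add_zero, Matrix.zero_mul, sub_zero]
    exact Matrix.PosSemidef.one

/-- a kernel vector -/
theorem exists_kernel {n : ℕ} (hn : 0 < n) (A B : Matrix (Fin n) (Fin n) ℂ) :
    ∃ x y : Matrix (Fin n) (Fin 1) ℂ, A * x + B * y = 0 ∧ xᴴ * x + yᴴ * y = 1 := by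
  classical
  let f : ((Fin n → ℂ) × (Fin n → ℂ)) →ₗ[ℂ] (Fin n → ℂ) :=
    (Matrix.toLin' A).coprod (Matrix.toLin' B)
  have hker : LinearMap.ker f ≠ ⊥ := by
    apply LinearMap.ker_ne_bot_of_finrank_lt
    rw [Module.finrank_prod, Module.finrank_fintype_fun_eq_card, Fintype.card_fin]
    omega
  obtain ⟨⟨u, v⟩, huv, hne⟩ := Submodule.exists_mem_ne_zero_of_ne_bot hker
  rw [LinearMap.mem_ker] at huv
  simp only [f, LinearMap.coprod_apply, Matrix.toLin'_apply] at huv
  set r : ℝ := ∑ a, ‖u a‖ ^ 2 + ∑ a, ‖v a‖ ^ 2 with hr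
  have hr0 : 0 ≤ r := by positivity
  have hrne : r ≠ 0 := by
    intro h0
    apply hne
    have h1 : ∑ a, ‖u a‖ ^ 2 = 0 := by
      have : 0 ≤ ∑ a, ‖v a‖ ^ 2 := by positivity
      have : 0 ≤ ∑ a, ‖u a‖ ^ 2 := by positivity
      linarith
    have h2 : ∑ a, ‖v a‖ ^ 2 = 0 := by linarith
    rw [Finset.sum_eq_zero_iff_of_nonneg (fun a _ => by positivity)] at h1 h2
    ext a
    · have := h1 a (Finset.mem_univ _)
      simpa using this
    · have := h2 a (Finset.mem_univ _)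
      simpa using this
  let t : ℂ := ((Real.sqrt r)⁻¹ : ℝ)
  have ht : star t * t * (r : ℂ) = 1 := by
    simp only [t, Complex.star_def, Complex.conj_ofReal]
    rw [← Complex.ofReal_mul, ← Complex.ofReal_mul, ← mul_inv, Real.mul_self_sqrt hr0,
      inv_mul_cancel₀ hrne, Complex.ofReal_one]
  refine ⟨Matrix.of fun a _ => t * u a, Matrix.of fun a _ => t * v a, ?_, ?_⟩
  · ext a b
    have := congrFun huv a
    simp only [Pi.add_apply, Matrix.mulVec, dotProduct, Pi.zero_apply] at this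
    rw [Matrix.add_apply, Matrix.mul_apply, Matrix.mul_apply, Matrix.zero_apply]
    simp only [Matrix.of_apply]
    have e : ∀ (M : Matrix (Fin n) (Fin n) ℂ) (w : Fin n → ℂ),
        ∑ c, M a c * (t * w c) = t * ∑ c, M a c * w c := by
      intro M w
      rw [Finset.mul_sum]
      exact Finset.sum_congr rfl fun c _ => by ring
    rw [e, e, ← mul_add, this, mul_zero]
  · ext a b
    have hab : a = b := Subsingleton.elim _ _
    subst hab
    rw [Matrix.add_apply, Matrix.mul_apply, Matrix.mul_apply, Matrix.one_apply_eq, ← ht, hr]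
    simp only [Matrix.conjTranspose_apply, Matrix.of_apply]
    push_cast
    rw [mul_add, Finset.mul_sum, Finset.mul_sum]
    have e : ∀ z : ℂ, star (t * z) * (t * z) = star t * t * (‖z‖ : ℂ) ^ 2 := by
      intro z
      rw [← Complex.conj_mul', star_mul']
      simp only [Complex.star_def]
      ring
    simp only [e]

theorem trace_fromBlocks' {p q : ℕ} (A : Matrix (Fin p) (Fin p) ℂ) (B : Matrix (Fin p) (Fin q) ℂ)
    (C : Matrix (Fin q) (Fin p) ℂ) (D : Matrix (Fin q) (Fin q) ℂ) :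
    (Matrix.fromBlocks A B C D).trace = A.trace + D.trace := by
  simp [Matrix.trace, Fintype.sum_sum_type]

/-- The row ball has no free extreme points. -/
theorem freeExt_rowBall (n : ℕ) : freeExt rowBall n = ∅ := by
  classical
  ext X
  simp only [Set.mem_empty_iff_false, iff_false]
  rintro ⟨hX, hfree⟩
  have hn : 0 < n := hX.1
  obtain ⟨x, y, hxy, hnorm⟩ := exists_kernel hn (A₁ X) (A₂ X)
  -- off-diagonal parts
  let β : Fin 4 → Matrix (Fin n) (Fin 1) ℂ :=
    ![(1 / 2 : ℂ) • x, (Complex.I / 2) • x, (1 / 2 : ℂ) • y, (Complex.I / 2) • y]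
  let e : Fin n ⊕ Fin 1 ≃ Fin (n + 1) := finSumFinEquiv
  let T : Fin 4 → Matrix (Fin n ⊕ Fin 1) (Fin n ⊕ Fin 1) ℂ := fun j =>
    Matrix.fromBlocks (X j) (β j) (β j)ᴴ 0
  let Y : Tup 4 (n + 1) := fun j => (T j).submatrix e.symm e.symm
  have hT1 : T 0 + Complex.I • T 1 = Matrix.fromBlocks (A₁ X) 0 xᴴ 0 := by
    simp only [T, Matrix.fromBlocks_smul, Matrix.fromBlocks_add, A₁]
    congr 1
    · simp only [β, Matrix.cons_val_zero, Matrix.cons_val_one, smul_smul, ← add_smul]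
      rw [show (1 / 2 : ℂ) + Complex.I * (Complex.I / 2) = 0 by
        rw [← mul_div_assoc, Complex.I_mul_I]; ring]
      simp
    · simp only [β, Matrix.cons_val_zero, Matrix.cons_val_one, Matrix.conjTranspose_smul,
        smul_smul, ← add_smul]
      rw [show star (1 / 2 : ℂ) + Complex.I * star (Complex.I / 2) = 1 by
        simp only [Complex.star_def, map_div₀, map_one, Complex.conj_I, Complex.conj_ofNat]
        rw [mul_div_assoc', mul_neg, Complex.I_mul_I]; norm_num]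
      simp
    · simp
  have hT2 : T 2 + Complex.I • T 3 = Matrix.fromBlocks (A₂ X) 0 yᴴ 0 := by
    simp only [T, Matrix.fromBlocks_smul, Matrix.fromBlocks_add, A₂]
    congr 1
    · simp only [β, Matrix.cons_val, smul_smul, ← add_smul]
      rw [show (1 / 2 : ℂ) + Complex.I * (Complex.I / 2) = 0 by
        rw [← mul_div_assoc, Complex.I_mul_I]; ring]
      simp
    · simp only [β, Matrix.cons_val, Matrix.conjTranspose_smul, smul_smul, ← add_smul]
      rw [show star (1 / 2 : ℂ) + Complex.I * star (Complex.I / 2) = 1 by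
        simp only [Complex.star_def, map_div₀, map_one, Complex.conj_I, Complex.conj_ofNat]
        rw [mul_div_assoc', mul_neg, Complex.I_mul_I]; norm_num]
      simp
    · simp
  have hYA1 : A₁ Y = (Matrix.fromBlocks (A₁ X) 0 xᴴ 0).submatrix e.symm e.symm := by
    rw [← hT1]; rfl
  have hYA2 : A₂ Y = (Matrix.fromBlocks (A₂ X) 0 yᴴ 0).submatrix e.symm e.symm := by
    rw [← hT2]; rfl
  have hTsa : ∀ j, (T j)ᴴ = T j := by
    intro j
    simp only [T, Matrix.fromBlocks_conjTranspose, Matrix.conjTranspose_conjTranspose,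
      Matrix.conjTranspose_zero, (hX.2.1 j).eq]
  -- Y is in the row ball
  have hY : Y ∈ rowBall (n + 1) := by
    refine ⟨Nat.succ_pos n, fun j => ?_, ?_⟩
    · change (Y j)ᴴ = Y j
      simp only [Y, Matrix.conjTranspose_submatrix, hTsa]
    · rw [hYA1, hYA2]
      simp only [Matrix.conjTranspose_submatrix, Matrix.submatrix_mul_equiv,
        Matrix.fromBlocks_conjTranspose, Matrix.conjTranspose_zero,
        Matrix.conjTranspose_conjTranspose, Matrix.fromBlocks_multiply, Matrix.mul_zero,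
        add_zero]
      have h1 : (1 : Matrix (Fin (n + 1)) (Fin (n + 1)) ℂ)
          = (Matrix.fromBlocks 1 0 0 1 : Matrix (Fin n ⊕ Fin 1) (Fin n ⊕ Fin 1) ℂ).submatrix
            e.symm e.symm := by
        rw [Matrix.fromBlocks_one, Matrix.submatrix_one_equiv]
      rw [h1]
      have h2 : ∀ P Q R : Matrix (Fin n ⊕ Fin 1) (Fin n ⊕ Fin 1) ℂ,
          P.submatrix e.symm e.symm - (Q.submatrix e.symm e.symm + R.submatrix e.symm e.symm)
            = (P - (Q + R)).submatrix e.symm e.symm := fun P Q R => rfl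
      rw [h2, Matrix.posSemidef_submatrix_equiv, Matrix.fromBlocks_add, hxy]
      have hxy' : xᴴ * (A₁ X)ᴴ + yᴴ * (A₂ X)ᴴ = 0 := by
        have := congrArg Matrix.conjTranspose hxy
        simpa [Matrix.conjTranspose_mul] using this
      rw [hxy', hnorm]
      have h3 : (Matrix.fromBlocks 1 0 0 1 - Matrix.fromBlocks
          (A₁ X * (A₁ X)ᴴ + A₂ X * (A₂ X)ᴴ) 0 0 1 :
            Matrix (Fin n ⊕ Fin 1) (Fin n ⊕ Fin 1) ℂ)
          = Matrix.fromRows (1 : Matrix (Fin n) (Fin n) ℂ) (0 : Matrix (Fin 1) (Fin n) ℂ) *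
            (1 - (A₁ X * (A₁ X)ᴴ + A₂ X * (A₂ X)ᴴ)) *
            (Matrix.fromRows (1 : Matrix (Fin n) (Fin n) ℂ) (0 : Matrix (Fin 1) (Fin n) ℂ))ᴴ := by
        rw [Matrix.fromRows_mul, Matrix.conjTranspose_fromRows_eq_fromCols_conjTranspose,
          Matrix.fromRows_mul_fromCols]
        rw [sub_eq_add_neg, Matrix.fromBlocks_neg, Matrix.fromBlocks_add]
        simp [sub_eq_add_neg]
      rw [h3]
      exact hX.2.2.mul_mul_conjTranspose_same _
  -- the compression
  let V : Matrix (Fin (n + 1)) (Fin n) ℂ :=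
    (Matrix.fromRows (1 : Matrix (Fin n) (Fin n) ℂ) (0 : Matrix (Fin 1) (Fin n) ℂ)).submatrix
      e.symm id
  have hVV : Vᴴ * V = 1 := by
    simp only [V, Matrix.conjTranspose_submatrix, Matrix.submatrix_mul_equiv]
    rw [Matrix.conjTranspose_fromRows_eq_fromCols_conjTranspose, Matrix.fromCols_mul_fromRows]
    simp
  have hVYV : ∀ j, X j = Vᴴ * Y j * V := by
    intro j
    simp only [V, Y, T, Matrix.conjTranspose_submatrix, Matrix.submatrix_mul_equiv]
    rw [Matrix.conjTranspose_fromRows_eq_fromCols_conjTranspose, Matrix.fromCols_mul_fromBlocks,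
      Matrix.fromCols_mul_fromRows]
    simp
  have hVne : V ≠ 0 := by
    intro h
    rw [h] at hVV
    have := congrFun (congrFun hVV ⟨0, hn⟩) ⟨0, hn⟩
    simp at this
  have hcon := hfree Unit inferInstance (fun _ => n + 1) (fun _ => Y) (fun _ => V)
    (fun _ => hY) (fun _ => hVne) ⟨by simpa using hVV, fun j => by simpa using hVYV j⟩ ()
  rcases hcon with ⟨h, _⟩ | ⟨_, l, Z, hZ, U, hU1, hU2, hU3⟩
  · omega
  -- sizes
  have hl : l = 1 := by
    have h1 : (U * Uᴴ).trace = (Uᴴ * U).trace := Matrix.trace_mul_comm _ _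
    rw [hU1, hU2, Matrix.trace_one, Matrix.trace_one] at h1
    simp only [Fintype.card_fin, Fintype.card_sum] at h1
    have : (n + 1 : ℕ) = n + l := by exact_mod_cast h1
    omega
  subst hl
  have htr : ∀ (M : Matrix (Fin n ⊕ Fin 1) (Fin n ⊕ Fin 1) ℂ), (U * M * Uᴴ).trace = M.trace := by
    intro M
    rw [Matrix.trace_mul_comm, ← Matrix.mul_assoc, hU1, Matrix.one_mul]
  have htrY : ∀ M : Matrix (Fin n ⊕ Fin 1) (Fin n ⊕ Fin 1) ℂ,
      (M.submatrix e.symm e.symm).trace = M.trace := by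
    intro M
    simp only [Matrix.trace, Matrix.diag_apply, Matrix.submatrix_apply]
    exact Equiv.sum_comp e.symm (fun i => M i i)
  have hZ0 : ∀ j, Z j = 0 := by
    intro j
    have h1 : (Y j).trace = (X j).trace := by
      simp only [Y, T]
      rw [htrY, trace_fromBlocks']
      simp
    rw [hU3 j, htr, trace_fromBlocks'] at h1
    have h2 : (Z j).trace = 0 := by
      have := h1
      simpa using this
    rw [Matrix.trace_fin_one] at h2
    ext a b
    rw [Subsingleton.elim a 0, Subsingleton.elim b 0, h2]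
    rfl
  have hβ : ∀ j, β j = 0 := by
    intro j
    have h1 : (Y j * Y j).trace = (X j * X j).trace := by
      rw [hU3 j, hZ0 j]
      have : U * Matrix.fromBlocks (X j) 0 0 (0 : Matrix (Fin 1) (Fin 1) ℂ) * Uᴴ *
          (U * Matrix.fromBlocks (X j) 0 0 (0 : Matrix (Fin 1) (Fin 1) ℂ) * Uᴴ)
          = U * (Matrix.fromBlocks (X j * X j) 0 0 (0 : Matrix (Fin 1) (Fin 1) ℂ)) * Uᴴ := by
        calc _ = U * Matrix.fromBlocks (X j) 0 0 (0 : Matrix (Fin 1) (Fin 1) ℂ) * (Uᴴ * U) *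
              (Matrix.fromBlocks (X j) 0 0 (0 : Matrix (Fin 1) (Fin 1) ℂ) * Uᴴ) := by
                simp only [Matrix.mul_assoc]
          _ = U * (Matrix.fromBlocks (X j) 0 0 (0 : Matrix (Fin 1) (Fin 1) ℂ) *
              Matrix.fromBlocks (X j) 0 0 (0 : Matrix (Fin 1) (Fin 1) ℂ)) * Uᴴ := by
                rw [hU1, Matrix.mul_one]
                simp only [Matrix.mul_assoc]
          _ = _ := by
                rw [Matrix.fromBlocks_multiply]
                simp
      rw [this, htr, trace_fromBlocks']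
      simp
    have h2 : (Y j * Y j).trace = (X j * X j).trace + ((β j)ᴴ * β j).trace
        + ((β j)ᴴ * β j).trace := by
      simp only [Y, T]
      rw [Matrix.submatrix_mul_equiv, htrY, Matrix.fromBlocks_multiply, trace_fromBlocks',
        Matrix.trace_add, Matrix.trace_add, Matrix.trace_mul_comm (β j) (β j)ᴴ]
      simp
    have h3 : ((β j)ᴴ * β j).trace = 0 := by
      rw [h1] at h2
      have : ((β j)ᴴ * β j).trace + ((β j)ᴴ * β j).trace = 0 := by
        linear_combination -h2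
      have h4 : 2 * ((β j)ᴴ * β j).trace = 0 := by rw [two_mul]; exact this
      simpa using h4
    rwa [Matrix.trace_conjTranspose_mul_self_eq_zero_iff] at h3
  have hx0 : x = 0 := by
    have := hβ 0
    simpa [β] using this
  have hy0 : y = 0 := by
    have := hβ 2
    simpa [β] using this
  rw [hx0, hy0] at hnorm
  have := congrFun (congrFun hnorm 0) 0
  simp at this

end Pool.Agent.H3.MatConv
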